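import Pool.Agent.Helper37.RC.Com
import Pool.Agent.Helper36.RC.M_STP

/-!
# Module G3 of track A (MP_b21509): the regime `S ≥ 3/2`
-/

set_option autoImplicit false

open MeasureTheory Set Filter Metric

namespace Pool.Agent.Helper97.RC.G3

open Helper49.LT Helper49.RC Helper87.RC Helper44.RC Helper56.RC Pool.Agent.Helper37.RC.Com

theorem gg_even {k : ℕ} (μ : ℝ) (h : k % 2 = 0) : gg μ k = 2 + μ * Real.sqrt 3 := by
  unfold gg
  have : Odd (k + 1) := by rw [Nat.odd_iff]; omega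
  rw [this.neg_one_pow]; ring

theorem gg_odd {k : ℕ} (μ : ℝ) (h : k % 2 = 1) : gg μ k = 2 - μ * Real.sqrt 3 := by
  unfold gg
  have : Even (k + 1) := by rw [Nat.even_iff]; omega
  rw [this.neg_one_pow]; ring

theorem chu_2 {k : ℕ} (h : k % 3 = 1) : chu k = 2 := by unfold chu; rw [if_pos h]
theorem chu_m {k : ℕ} (h : k % 3 ≠ 1) : chu k = -1 := by unfold chu; rw [if_neg h]
theorem chw_2 {k : ℕ} (h : k % 3 = 0) : chw k = 2 := by unfold chw; rw [if_pos h]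
theorem chw_m {k : ℕ} (h : k % 3 ≠ 0) : chw k = -1 := by unfold chw; rw [if_neg h]

/-- the block inequality for `k ≥ 1`, with the coefficients as parameters -/
theorem blk_k {k : ℕ} {t0 α γ A2 C2 p1 p2 : ℝ} (hk0 : k ≠ 0) (ht : t0 ≤ 2 * (k : ℝ) + 1) (ht0 : 1 ≤ t0)
    (hα : α = gg 1 k + 1 / 2 * chu k) (hγ : γ = gg 1 k + 1 / 2 * chw k)
    (hα2 : α ^ 2 ≤ A2) (hγ2 : γ ^ 2 ≤ C2) (hp1 : 0 < p1) (hp2 : 0 < p2)
    (h1 : A2 ≤ p1 * (8 * (1 / 2) * (941 / 100))) (h2 : (t0 + 2) * C2 ≤ p2 * (8 * (1 / 2) * (t0 * (941 / 100) - 1)))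
    (h3 : p1 + p2 ≤ 1) (u w : ℂ) :
    -(1 / 2) * (‖u‖ ^ 2 + ‖w‖ ^ 2) ≤ QB 1 (1 / 2) 0 0 k u w + 891 / 100 * (‖u‖ ^ 2 + ‖w‖ ^ 2) := by
  have h := blk_gen (ν := 1 / 2) (D := 941 / 100) (e1 := 1) (e2 := 1) (by norm_num) ht ht0 (by norm_num) zero_le_one
    zero_le_one hα2 hγ2 hp1 hp2 h1 h2 h3 u w
  unfold QB
  rw [if_neg hk0, tt, ← hα, ← hγ]
  have e3 : (2 * (k : ℝ) + 1) + 2 = 2 * k + 3 := by ring
  rw [e3] at h ⊢
  simp only [sub_self, zero_mul, add_zero]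
  linarith

theorem blk_pos (k : ℕ) (hk0 : k ≠ 0) (u w : ℂ) :
    -(1 / 2) * (‖u‖ ^ 2 + ‖w‖ ^ 2) ≤ QB 1 (1 / 2) 0 0 k u w + 891 / 100 * (‖u‖ ^ 2 + ‖w‖ ^ 2) := by
  have h3 := s3_sq
  have hl := s3_lo
  have hh := s3_hi
  have hr : k % 6 = 0 ∨ k % 6 = 1 ∨ k % 6 = 2 ∨ k % 6 = 3 ∨ k % 6 = 4 ∨ k % 6 = 5 := by omega
  rcases hr with h | h | h | h | h | h
  · have hk : 6 ≤ k := by omega
    have hk' : (6 : ℝ) ≤ k := by exact_mod_cast hk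
    refine blk_k (t0 := 13) (α := 2 + 1 * Real.sqrt 3 + 1 / 2 * (-1)) (γ := 2 + 1 * Real.sqrt 3 + 1 / 2 * 2) (A2 := 10.4462)
      (C2 := 22.3924) (p1 := 0.29) (p2 := 0.70) hk0 (by linarith) (by norm_num) ?_ ?_ (by nlinarith) (by nlinarith)
      (by norm_num) (by norm_num) (by norm_num) (by norm_num) (by norm_num) u w
    · rw [gg_even 1 (by omega), chu_m (by omega)]
    · rw [gg_even 1 (by omega), chw_2 (by omega)]
  · have hk : 1 ≤ k := by omega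
    have hk' : (1 : ℝ) ≤ k := by exact_mod_cast hk
    refine blk_k (t0 := 3) (α := 2 - 1 * Real.sqrt 3 + 1 / 2 * 2) (γ := 2 - 1 * Real.sqrt 3 + 1 / 2 * (-1)) (A2 := 1.608)
      (C2 := 0.0539) (p1 := 1 / 2) (p2 := 1 / 2) hk0 (by linarith) (by norm_num) ?_ ?_ (by nlinarith) (by nlinarith)
      (by norm_num) (by norm_num) (by norm_num) (by norm_num) (by norm_num) u w
    · rw [gg_odd 1 (by omega), chu_2 (by omega)]
    · rw [gg_odd 1 (by omega), chw_m (by omega)]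
  · have hk : 2 ≤ k := by omega
    have hk' : (2 : ℝ) ≤ k := by exact_mod_cast hk
    refine blk_k (t0 := 5) (α := 2 + 1 * Real.sqrt 3 + 1 / 2 * (-1)) (γ := 2 + 1 * Real.sqrt 3 + 1 / 2 * (-1)) (A2 := 10.4462)
      (C2 := 10.4462) (p1 := 0.4) (p2 := 0.6) hk0 (by linarith) (by norm_num) ?_ ?_ (by nlinarith) (by nlinarith)
      (by norm_num) (by norm_num) (by norm_num) (by norm_num) (by norm_num) u w
    · rw [gg_even 1 (by omega), chu_m (by omega)]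
    · rw [gg_even 1 (by omega), chw_m (by omega)]
  · have hk : 3 ≤ k := by omega
    have hk' : (3 : ℝ) ≤ k := by exact_mod_cast hk
    refine blk_k (t0 := 7) (α := 2 - 1 * Real.sqrt 3 + 1 / 2 * (-1)) (γ := 2 - 1 * Real.sqrt 3 + 1 / 2 * 2) (A2 := 0.0539)
      (C2 := 1.608) (p1 := 1 / 2) (p2 := 1 / 2) hk0 (by linarith) (by norm_num) ?_ ?_ (by nlinarith) (by nlinarith)
      (by norm_num) (by norm_num) (by norm_num) (by norm_num) (by norm_num) u w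
    · rw [gg_odd 1 (by omega), chu_m (by omega)]
    · rw [gg_odd 1 (by omega), chw_2 (by omega)]
  · have hk : 4 ≤ k := by omega
    have hk' : (4 : ℝ) ≤ k := by exact_mod_cast hk
    refine blk_k (t0 := 9) (α := 2 + 1 * Real.sqrt 3 + 1 / 2 * 2) (γ := 2 + 1 * Real.sqrt 3 + 1 / 2 * (-1)) (A2 := 22.3924)
      (C2 := 10.4462) (p1 := 0.62) (p2 := 0.37) hk0 (by linarith) (by norm_num) ?_ ?_ (by nlinarith) (by nlinarith)
      (by norm_num) (by norm_num) (by norm_num) (by norm_num) (by norm_num) u w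
    · rw [gg_even 1 (by omega), chu_2 (by omega)]
    · rw [gg_even 1 (by omega), chw_m (by omega)]
  · have hk : 5 ≤ k := by omega
    have hk' : (5 : ℝ) ≤ k := by exact_mod_cast hk
    refine blk_k (t0 := 11) (α := 2 - 1 * Real.sqrt 3 + 1 / 2 * (-1)) (γ := 2 - 1 * Real.sqrt 3 + 1 / 2 * (-1)) (A2 := 0.0539)
      (C2 := 0.0539) (p1 := 1 / 2) (p2 := 1 / 2) hk0 (by linarith) (by norm_num) ?_ ?_ (by nlinarith) (by nlinarith)
      (by norm_num) (by norm_num) (by norm_num) (by norm_num) (by norm_num) u w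
    · rw [gg_odd 1 (by omega), chu_m (by omega)]
    · rw [gg_odd 1 (by omega), chw_m (by omega)]

/-- expansion of the norm of a real combination -/
theorem normsq_comb (p q : ℝ) (u w : ℂ) :
    ‖(p : ℂ) * u + (q : ℂ) * (starRingEnd ℂ) w‖ ^ 2 = p ^ 2 * ‖u‖ ^ 2 + q ^ 2 * ‖w‖ ^ 2 + 2 * p * q * (u * w).re := by
  rw [← Complex.normSq_eq_norm_sq, ← Complex.normSq_eq_norm_sq, ← Complex.normSq_eq_norm_sq, Complex.normSq_apply,
    Complex.normSq_apply, Complex.normSq_apply]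
  simp only [Complex.add_re, Complex.add_im, Complex.mul_re, Complex.mul_im, Complex.ofReal_re, Complex.ofReal_im,
    Complex.conj_re, Complex.conj_im]
  ring

theorem re_le (u w : ℂ) : |(u * w).re| ≤ ‖u‖ * ‖w‖ := by
  rw [← norm_mul]; exact Complex.abs_re_le_norm _

theorem blk_zero (u w : ℂ) :
    9 * ‖u‖ ^ 2 + 7 * ‖w‖ ^ 2 ≤ QB 1 (1 / 2) 0 0 0 u w + 891 / 100 * (‖u‖ ^ 2 + ‖w‖ ^ 2) := by
  have h3 := s3_sq
  have hl := s3_lo
  have hh := s3_hi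
  have hg : gg 1 0 = 2 + Real.sqrt 3 := by rw [gg_even 1 rfl]; ring
  unfold QB
  rw [if_pos rfl, hg]
  have e1 : (3 / 2 : ℂ) * (starRingEnd ℂ) w - (1 / 2 : ℂ) * u = ((-(1 / 2) : ℝ) : ℂ) * u + ((3 / 2 : ℝ) : ℂ) * (starRingEnd ℂ) w := by
    push_cast; ring
  rw [e1, normsq_comb, normsq_comb]
  have hr := re_le u w
  set R := (u * w).re with hR
  set s := Real.sqrt 3 with hs
  set x := ‖u‖ with hx
  set y := ‖w‖ with hy
  have hx0 : 0 ≤ x := norm_nonneg _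
  have hy0 : 0 ≤ y := norm_nonneg _
  simp only [sub_self, zero_mul, add_zero, Nat.cast_zero, mul_zero, zero_add]
  have hab := abs_le.mp hr
  have key : 0 ≤ (1 / 3 + 1 / 6 + 891 / 100 - 9 - 3 / (8 * (1 + 1 / 2)) * ((2 + s - 1 / 2 - 2) / 3) ^ 2) * x ^ 2
      + (-1 + 3 / 2 + 891 / 100 - 7 - 3 / (8 * (1 + 1 / 2)) * (2 - (2 + s) - 2 * (1 / 2)) ^ 2) * y ^ 2
      + (-1 - 3 / (8 * (1 + 1 / 2)) * (2 * ((2 + s - 1 / 2 - 2) / 3) * (2 - (2 + s) - 2 * (1 / 2)))) * R := by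
    have c1 : 36 / 100 ≤ 1 / 3 + 1 / 6 + 891 / 100 - 9 - 3 / (8 * (1 + 1 / 2)) * ((2 + s - 1 / 2 - 2) / 3) ^ 2 := by
      nlinarith
    have c2 : 54 / 100 ≤ -1 + 3 / 2 + 891 / 100 - 7 - 3 / (8 * (1 + 1 / 2)) * (2 - (2 + s) - 2 * (1 / 2)) ^ 2 := by
      nlinarith
    have c3 : -1 - 3 / (8 * (1 + 1 / 2)) * (2 * ((2 + s - 1 / 2 - 2) / 3) * (2 - (2 + s) - 2 * (1 / 2))) ≤ 0 := by
      nlinarith
    have c4 : -44 / 100 ≤ -1 - 3 / (8 * (1 + 1 / 2)) * (2 * ((2 + s - 1 / 2 - 2) / 3) * (2 - (2 + s) - 2 * (1 / 2))) := by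
      nlinarith
    have d1 := mul_le_mul_of_nonneg_right c1 (sq_nonneg x)
    have d2 := mul_le_mul_of_nonneg_right c2 (sq_nonneg y)
    have d3 := mul_le_mul_of_nonpos_left hab.2 c3
    have d4 := mul_le_mul_of_nonneg_right c4 (mul_nonneg hx0 hy0)
    nlinarith [sq_nonneg (x - y)]
  nlinarith [key]

theorem blk_all (k : ℕ) (u w : ℂ) :
    -(1 / 2) * (‖u‖ ^ 2 + ‖w‖ ^ 2) + (if k = 0 then 95 / 10 * ‖u‖ ^ 2 + 75 / 10 * ‖w‖ ^ 2 else 0)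
      ≤ QB 1 (1 / 2) 0 0 k u w + 891 / 100 * (‖u‖ ^ 2 + ‖w‖ ^ 2) := by
  by_cases hk : k = 0
  · subst hk
    rw [if_pos rfl]
    have := blk_zero u w
    linarith
  · rw [if_neg hk, add_zero]
    exact blk_pos k hk u w

/-- the core of the scalar inequality -/
theorem core {S x1 s : ℝ} (hs0 : 0 ≤ s) (hs1 : s ≤ 1) (hx0 : -1 ≤ x1) (hx1 : x1 ≤ 1) (hS1 : 3 / 2 ≤ S)
    (hS2 : S ≤ 1 + 3 * s + x1) :
    0 ≤ 5 + 3464 / 1000 - 891 / 100 + 2732 / 1000 * S - 1 / 2 * S ^ 2 + 768 / 1000 * S * x1 - 1196 / 1000 * x1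
      - 268 / 1000 * x1 ^ 2 + 1041 / 100 * x1 ^ 2 - 165 / 100 * s ^ 2 := by
  have k1 : 0 ≤ (S - 3 / 2) * (1 + 3 * s + x1 - S) := mul_nonneg (by linarith) (by linarith)
  have hss : s ^ 2 ≤ 1 := by nlinarith
  rcases le_total 0 (1482 / 1000 - 15 / 10 * s + 268 / 1000 * x1) with hc | hc
  · have k2 : 0 ≤ (1482 / 1000 - 15 / 10 * s + 268 / 1000 * x1) * (S - 3 / 2) := mul_nonneg hc (by linarith)
    nlinarith [sq_nonneg (x1 - 1 / 400)]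
  · have k2 : 0 ≤ -(1482 / 1000 - 15 / 10 * s + 268 / 1000 * x1) * (1 + 3 * s + x1 - S) :=
      mul_nonneg (by linarith) (by linarith)
    have k3 : 0 ≤ s * (1 - s) := mul_nonneg hs0 (by linarith)
    nlinarith [sq_nonneg (x1 + 1304 / 20820 - 696 / 20820 * s), sq_nonneg x1]

/-- the scalar inequality -/
theorem scal {S x m y0 x1 u w s : ℝ} (hm0 : 0 ≤ m) (hm2 : m ≤ 1) (hsm : s ^ 2 = m) (hs0 : 0 ≤ s)
    (hS1 : 3 / 2 ≤ S) (hS2 : S ≤ 1 + 3 * s + x1)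
    (hx : |x1| ≤ y0) (hy1 : y0 ^ 2 ≤ 1) (hs : x = Real.sqrt 3) (hu : 0 ≤ u) (hw : 0 ≤ w) :
    0 ≤ 5 + 2 * x * 1 - 891 / 100 + (2 + 1 * x - 2 * (1 / 2)) * S - 1 / 2 * S ^ 2 + (2 - 1 * x + 1 / 2) * S * x1
      + (4 - 3 * x * 1) * x1 - (2 - 1 * x) * x1 ^ 2 + 991 / 100 * y0 ^ 2 + -(1 / 2) * (m - y0 ^ 2)
      + 95 / 10 * u ^ 2 + 75 / 10 * w ^ 2 - m * (5733 / 1000 * w + 1411 / 1000 * u) := by
  have hl := s3_lo
  have hh := s3_hi
  rw [← hs] at hl hh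
  have hx2 : x1 ^ 2 ≤ y0 ^ 2 := by
    rw [← sq_abs x1]; exact pow_le_pow_left₀ (abs_nonneg _) hx 2
  have hx1 := abs_le_of_sq_le_sq' (show x1 ^ 2 ≤ 1 ^ 2 by linarith) (by norm_num)
  have hs1 : s ≤ 1 := by nlinarith
  have q1 : -(115 / 100) * m ^ 2 ≤ 95 / 10 * u ^ 2 + 75 / 10 * w ^ 2 - m * (5733 / 1000 * w + 1411 / 1000 * u) := by
    nlinarith [sq_nonneg (u - 1411 / 19000 * m), sq_nonneg (w - 5733 / 15000 * m), sq_nonneg m]
  have q2 : m ^ 2 ≤ m := by nlinarith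
  have hc := core hs0 hs1 hx1.1 hx1.2 hS1 hS2
  have q3 : 0 ≤ (x - 1732 / 1000) * ((1 - x1) * (S + 2 - x1)) :=
    mul_nonneg (by linarith) (mul_nonneg (by linarith [hx1.2]) (by linarith [hx1.2]))
  rw [hsm] at hc
  nlinarith

theorem hG3 (h₁ : StLbt) (h₂ : StStp) (h₃ : StPar) : StG3 := by
  intro β P hA h1 hS1
  obtain ⟨hsQ, hL⟩ := h₁ β P hA h1 1 (1 / 2) 0 0 1 (by norm_num) (by norm_num) (by norm_num) le_rfl
    (by rw [abs_zero]; have := Real.pi_pos; linarith) (by simp)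
  obtain ⟨hsE, hmB, -, -, -⟩ := h₃ β P hA h1
  have hm1 := mB_le_one hA h1
  have hb1 := b1_le β
  have hS2 := h₂ β P hA h1
  have hsum := sum_blk hsQ hsE (-(1 / 2)) (891 / 100)
    (95 / 10 * ‖uu β 0‖ ^ 2 + 75 / 10 * ‖ww β 0‖ ^ 2) (fun k => by
      have := blk_all k (uu β k) (ww β k)
      by_cases hk : k = 0
      · subst hk; simpa using this
      · simpa [hk] using this)
  have hZ0 : 0 ≤ ∑' k : ℕ, (‖uu β k‖ ^ 2 + ‖ww β k‖ ^ 2) := tsum_nonneg fun k => by positivity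
  set Z := ∑' k : ℕ, (‖uu β k‖ ^ 2 + ‖ww β k‖ ^ 2) with hZ
  set SQ := ∑' k : ℕ, QB 1 (1 / 2) 0 0 k (uu β k) (ww β k) with hSQ
  have hg : gg 1 0 = 2 + Real.sqrt 3 := by rw [gg_even 1 rfl]; ring
  have hm0 : 0 ≤ mB β := by rw [hmB]; positivity
  have hy1 : ‖fc β 0‖ ^ 2 ≤ 1 := by linarith
  -- the cubic term
  have hc : 3 / (2 * (1 + 1 / 2)) * mB β * ‖((gg 1 0 + 4 * (1 / 2) : ℝ) : ℂ) * (starRingEnd ℂ) (ww β 0)
        - (((gg 1 0 + 1 / 2) / 3 : ℝ) : ℂ) * uu β 0‖ ≤ mB β * (5733 / 1000 * ‖ww β 0‖ + 1411 / 1000 * ‖uu β 0‖) := by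
    have hh := s3_hi
    have hl := s3_lo
    have hn : ‖((gg 1 0 + 4 * (1 / 2) : ℝ) : ℂ) * (starRingEnd ℂ) (ww β 0)
        - (((gg 1 0 + 1 / 2) / 3 : ℝ) : ℂ) * uu β 0‖ ≤ 5733 / 1000 * ‖ww β 0‖ + 1411 / 1000 * ‖uu β 0‖ := by
      refine (norm_sub_le _ _).trans ?_
      rw [norm_mul, norm_mul, Complex.norm_real, Complex.norm_real, Complex.norm_conj, hg, Real.norm_eq_abs, Real.norm_eq_abs,
        abs_of_pos (by linarith), abs_of_pos (by linarith)]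
      exact add_le_add (mul_le_mul_of_nonneg_right (by linarith) (norm_nonneg _))
        (mul_le_mul_of_nonneg_right (by linarith) (norm_nonneg _))
    have h := mul_le_mul_of_nonneg_left hn hm0
    have e : 3 / (2 * (1 + 1 / 2)) * mB β = mB β := by ring
    rw [e]
    exact h
  have hsc := scal (S := SS β P) (m := mB β) (y0 := ‖fc β 0‖) (x1 := b1 β) (u := ‖uu β 0‖) (w := ‖ww β 0‖)
    (s := Real.sqrt (mB β)) hm0 hm1 (Real.sq_sqrt hm0) (Real.sqrt_nonneg _) hS1 hS2 hb1 hy1 rfl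
    (norm_nonneg _) (norm_nonneg _)
  have hZm : Z = mB β - ‖fc β 0‖ ^ 2 := by rw [hmB]; ring
  unfold FSc F1c at hL
  simp only [sub_self, zero_mul, add_zero] at hL
  rw [hZm] at hsum
  nlinarith [hL, hsum, hc, hsc]

end Pool.Agent.Helper97.RC.G3
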