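import Mathlib

/-!
# Project RC, track A, module LOWB: the rational inequality
-/

set_option autoImplicit false

namespace Pool.Agent.Helper97.RC

/-- the rational lower bound of the function of option B -/
noncomputable def rtB (x a z2 y0 x1 q qh : ℝ) : ℝ :=
  (-(69 / 1250)) + (8783 / 5000) * q - 33 / 200 * q ^ 2 + (1 / 25) * qh - 33 / 200 * qh * (2 * q + qh)
  + (5173 / 10000) * z2 - (2269 / 2000) * x ^ 2 + (1851 / 5000) * x + (-(1929 / 25000)) * a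
  + (12269 / 1250) * y0 ^ 2 - (27917 / 10000) * x1 ^ 2 - (if 0 ≤ x1 then 52 / 100 * x1 ^ 2 else 0)
  + ((-(21709 / 50000)) + (1299 / 625) * (q + qh)) * x1 - (163 / 250) * x * y0

theorem ratB0 (x a z2 y0 x1 q qh : ℝ) (hx0 : (29 / 100) ≤ x) (hx1 : x ≤ (9 / 25))
    (ha : a ^ 2 ≤ z2) (h1 : |x1| ≤ y0) (hqh : 0 ≤ qh) (hq : q = 47 / 100 * (x ^ 2 + z2 + x * a)) (hQ : q + qh ≤ 1 / 5) :
    0 ≤ rtB x a z2 y0 x1 q qh := by
  have hy : 0 ≤ y0 := (abs_nonneg x1).trans h1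
  have h1' := abs_le.1 h1
  have hxx : (0 : ℝ) ≤ x := le_trans (by norm_num) hx0
  have hq0 : 0 ≤ q := by rw [hq]; nlinarith [sq_nonneg (x + 2 * a), sq_nonneg x]
  obtain ⟨Q, hQQ⟩ : ∃ Q, q + qh = Q := ⟨_, rfl⟩
  have hQ1 : Q ≤ 1 / 5 := by linarith
  have hQ0 : q ≤ Q := by linarith
  have hx1y : x1 ^ 2 ≤ y0 ^ 2 := sq_le_sq' h1'.1 h1'.2

  have s1 : -((27917 / 10000) + 52 / 100) * y0 ^ 2 + ((-(21709 / 50000)) + (1299 / 625) * Q) * y0 ≤
      -(27917 / 10000) * x1 ^ 2 - (if 0 ≤ x1 then 52 / 100 * x1 ^ 2 else 0) + ((-(21709 / 50000)) + (1299 / 625) * Q) * x1 := by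
    have hL : 0 ≤ -((-(21709 / 50000)) + (1299 / 625) * Q) := by linarith
    have h3 : 0 ≤ -((-(21709 / 50000)) + (1299 / 625) * Q) * (y0 - x1) := mul_nonneg hL (by linarith)
    split_ifs with h0
    · linarith
    · nlinarith [sq_nonneg y0]
  have s2 : 0 ≤ (13007 / 2000) * (y0 - (1000 / 13007) * (-(-(21709 / 50000)) - (1299 / 625) * Q + (163 / 250) * x)) ^ 2 := by positivity
  have s3 : 0 ≤ Q * ((1 / 25) - 33 / 200 * Q + (500 / 13007) * (2 * (-(-(21709 / 50000)) + (163 / 250) * x) * (1299 / 625) - (1687401 / 390625) * Q) - (733 / 10000)) :=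
    mul_nonneg (by linarith) (by linarith)
  have s3' : 0 ≤ (733 / 10000) * (Q - q) := mul_nonneg (by norm_num) (by linarith)

  have s4 : 0 ≤ (1358553 / 1000000) * (a + (120179 / 388158) * x + (-(12860 / 452851))) ^ 2 := by positivity
  have s5 : 0 ≤ (1358553 / 1000000) * (z2 - a ^ 2) := mul_nonneg (by norm_num) (by linarith)
  have s6 : 0 ≤ (4441101461815373 / 10097542212000000) * ((x - (29 / 100)) * ((9 / 25) - x)) :=
    mul_nonneg (by norm_num) (mul_nonneg (by linarith) (by linarith))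
  have e1 : qh = Q - q := by linarith
  unfold rtB
  rw [hQQ, e1]
  rw [hq] at hq0 ⊢
  nlinarith [s1, s2, s3, s4, s5, s6, s3']

theorem ratB1 (x a z2 y0 x1 q qh : ℝ) (hx0 : (9 / 25) ≤ x) (hx1 : x ≤ (11 / 25))
    (ha : a ^ 2 ≤ z2) (h1 : |x1| ≤ y0) (hqh : 0 ≤ qh) (hq : q = 47 / 100 * (x ^ 2 + z2 + x * a)) (hQ : q + qh ≤ 1 / 5) :
    0 ≤ rtB x a z2 y0 x1 q qh := by
  have hy : 0 ≤ y0 := (abs_nonneg x1).trans h1
  have h1' := abs_le.1 h1
  have hxx : (0 : ℝ) ≤ x := le_trans (by norm_num) hx0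
  have hq0 : 0 ≤ q := by rw [hq]; nlinarith [sq_nonneg (x + 2 * a), sq_nonneg x]
  obtain ⟨Q, hQQ⟩ : ∃ Q, q + qh = Q := ⟨_, rfl⟩
  have hQ1 : Q ≤ 1 / 5 := by linarith
  have hQ0 : q ≤ Q := by linarith
  have hx1y : x1 ^ 2 ≤ y0 ^ 2 := sq_le_sq' h1'.1 h1'.2

  have s1 : -((27917 / 10000) + 52 / 100) * y0 ^ 2 + ((-(21709 / 50000)) + (1299 / 625) * Q) * y0 ≤
      -(27917 / 10000) * x1 ^ 2 - (if 0 ≤ x1 then 52 / 100 * x1 ^ 2 else 0) + ((-(21709 / 50000)) + (1299 / 625) * Q) * x1 := by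
    have hL : 0 ≤ -((-(21709 / 50000)) + (1299 / 625) * Q) := by linarith
    have h3 : 0 ≤ -((-(21709 / 50000)) + (1299 / 625) * Q) * (y0 - x1) := mul_nonneg hL (by linarith)
    split_ifs with h0
    · linarith
    · nlinarith [sq_nonneg y0]
  have s2 : 0 ≤ (13007 / 2000) * (y0 - (1000 / 13007) * (-(-(21709 / 50000)) - (1299 / 625) * Q + (163 / 250) * x)) ^ 2 := by positivity
  have s3 : 0 ≤ Q * ((1 / 25) - 33 / 200 * Q + (500 / 13007) * (2 * (-(-(21709 / 50000)) + (163 / 250) * x) * (1299 / 625) - (1687401 / 390625) * Q) - (403 / 5000)) :=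
    mul_nonneg (by linarith) (by linarith)
  have s3' : 0 ≤ (403 / 5000) * (Q - q) := mul_nonneg (by norm_num) (by linarith)

  have s4 : 0 ≤ (21281 / 15625) * (a + (211171 / 680992) * x + (-(9645 / 340496))) ^ 2 := by positivity
  have s5 : 0 ≤ (21281 / 15625) * (z2 - a ^ 2) := mul_nonneg (by norm_num) (by linarith)
  have s6 : 0 ≤ (1935942966152839 / 4428831472000000) * ((x - (9 / 25)) * ((11 / 25) - x)) :=
    mul_nonneg (by norm_num) (mul_nonneg (by linarith) (by linarith))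
  have e1 : qh = Q - q := by linarith
  unfold rtB
  rw [hQQ, e1]
  rw [hq] at hq0 ⊢
  nlinarith [s1, s2, s3, s4, s5, s6, s3']

theorem ratB2 (x a z2 y0 x1 q qh : ℝ) (hx0 : (11 / 25) ≤ x) (hx1 : x ≤ (13 / 25))
    (ha : a ^ 2 ≤ z2) (h1 : |x1| ≤ y0) (hqh : 0 ≤ qh) (hq : q = 47 / 100 * (x ^ 2 + z2 + x * a)) (hQ : q + qh ≤ 1 / 5) :
    0 ≤ rtB x a z2 y0 x1 q qh := by
  have hy : 0 ≤ y0 := (abs_nonneg x1).trans h1
  have h1' := abs_le.1 h1
  have hxx : (0 : ℝ) ≤ x := le_trans (by norm_num) hx0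
  have hq0 : 0 ≤ q := by rw [hq]; nlinarith [sq_nonneg (x + 2 * a), sq_nonneg x]
  obtain ⟨Q, hQQ⟩ : ∃ Q, q + qh = Q := ⟨_, rfl⟩
  have hQ1 : Q ≤ 1 / 5 := by linarith
  have hQ0 : q ≤ Q := by linarith
  have hx1y : x1 ^ 2 ≤ y0 ^ 2 := sq_le_sq' h1'.1 h1'.2

  have s1 : -((27917 / 10000) + 52 / 100) * y0 ^ 2 + ((-(21709 / 50000)) + (1299 / 625) * Q) * y0 ≤
      -(27917 / 10000) * x1 ^ 2 - (if 0 ≤ x1 then 52 / 100 * x1 ^ 2 else 0) + ((-(21709 / 50000)) + (1299 / 625) * Q) * x1 := by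
    have hL : 0 ≤ -((-(21709 / 50000)) + (1299 / 625) * Q) := by linarith
    have h3 : 0 ≤ -((-(21709 / 50000)) + (1299 / 625) * Q) * (y0 - x1) := mul_nonneg hL (by linarith)
    split_ifs with h0
    · linarith
    · nlinarith [sq_nonneg y0]
  have s2 : 0 ≤ (13007 / 2000) * (y0 - (1000 / 13007) * (-(-(21709 / 50000)) - (1299 / 625) * Q + (163 / 250) * x)) ^ 2 := by positivity
  have s3 : 0 ≤ Q * ((1 / 25) - 33 / 200 * Q + (500 / 13007) * (2 * (-(-(21709 / 50000)) + (163 / 250) * x) * (1299 / 625) - (1687401 / 390625) * Q) - (89 / 1000)) :=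
    mul_nonneg (by linarith) (by linarith)
  have s3' : 0 ≤ (89 / 1000) * (Q - q) := mul_nonneg (by norm_num) (by linarith)

  have s4 : 0 ≤ (341483 / 250000) * (a + (106079 / 341483) * x + (-(9645 / 341483))) ^ 2 := by positivity
  have s5 : 0 ≤ (341483 / 250000) * (z2 - a ^ 2) := mul_nonneg (by norm_num) (by linarith)
  have s6 : 0 ≤ (240971541859307 / 555208672625000) * ((x - (11 / 25)) * ((13 / 25) - x)) :=
    mul_nonneg (by norm_num) (mul_nonneg (by linarith) (by linarith))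
  have e1 : qh = Q - q := by linarith
  unfold rtB
  rw [hQQ, e1]
  rw [hq] at hq0 ⊢
  nlinarith [s1, s2, s3, s4, s5, s6, s3']

theorem ratB3 (x a z2 y0 x1 q qh : ℝ) (hx0 : (13 / 25) ≤ x) (hx1 : x ≤ (3 / 5))
    (ha : a ^ 2 ≤ z2) (h1 : |x1| ≤ y0) (hqh : 0 ≤ qh) (hq : q = 47 / 100 * (x ^ 2 + z2 + x * a)) (hQ : q + qh ≤ 1 / 5) :
    0 ≤ rtB x a z2 y0 x1 q qh := by
  have hy : 0 ≤ y0 := (abs_nonneg x1).trans h1
  have h1' := abs_le.1 h1
  have hxx : (0 : ℝ) ≤ x := le_trans (by norm_num) hx0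
  have hq0 : 0 ≤ q := by rw [hq]; nlinarith [sq_nonneg (x + 2 * a), sq_nonneg x]
  obtain ⟨Q, hQQ⟩ : ∃ Q, q + qh = Q := ⟨_, rfl⟩
  have hQ1 : Q ≤ 1 / 5 := by linarith
  have hQ0 : q ≤ Q := by linarith
  have hx1y : x1 ^ 2 ≤ y0 ^ 2 := sq_le_sq' h1'.1 h1'.2

  have s1 : -((27917 / 10000) + 52 / 100) * y0 ^ 2 + ((-(21709 / 50000)) + (1299 / 625) * Q) * y0 ≤
      -(27917 / 10000) * x1 ^ 2 - (if 0 ≤ x1 then 52 / 100 * x1 ^ 2 else 0) + ((-(21709 / 50000)) + (1299 / 625) * Q) * x1 := by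
    have hL : 0 ≤ -((-(21709 / 50000)) + (1299 / 625) * Q) := by linarith
    have h3 : 0 ≤ -((-(21709 / 50000)) + (1299 / 625) * Q) * (y0 - x1) := mul_nonneg hL (by linarith)
    split_ifs with h0
    · linarith
    · nlinarith [sq_nonneg y0]
  have s2 : 0 ≤ (13007 / 2000) * (y0 - (1000 / 13007) * (-(-(21709 / 50000)) - (1299 / 625) * Q + (163 / 250) * x)) ^ 2 := by positivity
  have s3 : 0 ≤ Q * ((1 / 25) - 33 / 200 * Q + (500 / 13007) * (2 * (-(-(21709 / 50000)) + (163 / 250) * x) * (1299 / 625) - (1687401 / 390625) * Q) - (973 / 10000)) :=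
    mul_nonneg (by linarith) (by linarith)
  have s3' : 0 ≤ (973 / 10000) * (Q - q) := mul_nonneg (by norm_num) (by linarith)

  have s4 : 0 ≤ (1369833 / 1000000) * (a + (852533 / 2739666) * x + (-(12860 / 456611))) ^ 2 := by positivity
  have s5 : 0 ≤ (1369833 / 1000000) * (z2 - a ^ 2) := mul_nonneg (by norm_num) (by linarith)
  have s6 : 0 ≤ (30713988786247931 / 71269671324000000) * ((x - (13 / 25)) * ((3 / 5) - x)) :=
    mul_nonneg (by norm_num) (mul_nonneg (by linarith) (by linarith))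
  have e1 : qh = Q - q := by linarith
  unfold rtB
  rw [hQQ, e1]
  rw [hq] at hq0 ⊢
  nlinarith [s1, s2, s3, s4, s5, s6, s3']

end Pool.Agent.Helper97.RC
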