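import Mathlib

/-!
# Project RC, track A, module LOWC: the rational inequality
-/

set_option autoImplicit false

namespace Pool.Agent.Helper97.RC

/-- the rational lower bound of the function of option C -/
noncomputable def rtC (x a z2 y0 x1 q qh : ℝ) : ℝ :=
  (-(723 / 5000)) + (8783 / 5000) * q - 33 / 200 * q ^ 2 + (33 / 500) * qh - 33 / 200 * qh * (2 * q + qh)
  + (3317 / 10000) * z2 - (2601 / 2500) * x ^ 2 + (5107 / 10000) * x + 0 * a
  + (48589 / 5000) * y0 ^ 2 - (27917 / 10000) * x1 ^ 2 - (if 0 ≤ x1 then 52 / 100 * x1 ^ 2 else 0)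
  + ((-(12067 / 25000)) + (1299 / 625) * (q + qh)) * x1 - (2161 / 2500) * x * y0

theorem ratC0 (x a z2 y0 x1 q qh : ℝ) (hx0 : (3 / 5) ≤ x) (hx1 : x ≤ (17 / 25))
    (ha : a ^ 2 ≤ z2) (h1 : |x1| ≤ y0) (hqh : 0 ≤ qh) (hq : q = 47 / 100 * (x ^ 2 + z2 + x * a)) (hQ : q + qh ≤ 1 / 5) :
    0 ≤ rtC x a z2 y0 x1 q qh := by
  have hy : 0 ≤ y0 := (abs_nonneg x1).trans h1
  have h1' := abs_le.1 h1
  have hxx : (0 : ℝ) ≤ x := le_trans (by norm_num) hx0
  have hq0 : 0 ≤ q := by rw [hq]; nlinarith [sq_nonneg (x + 2 * a), sq_nonneg x]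
  obtain ⟨Q, hQQ⟩ : ∃ Q, q + qh = Q := ⟨_, rfl⟩
  have hQ1 : Q ≤ 1 / 5 := by linarith
  have hQ0 : q ≤ Q := by linarith
  have hx1y : x1 ^ 2 ≤ y0 ^ 2 := sq_le_sq' h1'.1 h1'.2

  have s1 : -((27917 / 10000) + 52 / 100) * y0 ^ 2 + ((-(12067 / 25000)) + (1299 / 625) * Q) * y0 ≤
      -(27917 / 10000) * x1 ^ 2 - (if 0 ≤ x1 then 52 / 100 * x1 ^ 2 else 0) + ((-(12067 / 25000)) + (1299 / 625) * Q) * x1 := by
    have hL : 0 ≤ -((-(12067 / 25000)) + (1299 / 625) * Q) := by linarith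
    have h3 : 0 ≤ -((-(12067 / 25000)) + (1299 / 625) * Q) * (y0 - x1) := mul_nonneg hL (by linarith)
    split_ifs with h0
    · linarith
    · nlinarith [sq_nonneg y0]
  have s2 : 0 ≤ (64061 / 10000) * (y0 - (5000 / 64061) * (-(-(12067 / 25000)) - (1299 / 625) * Q + (2161 / 2500) * x)) ^ 2 := by positivity
  have s3 : 0 ≤ Q * ((33 / 500) - 33 / 200 * Q + (2500 / 64061) * (2 * (-(-(12067 / 25000)) + (2161 / 2500) * x) * (1299 / 625) - (1687401 / 390625) * Q) - (1617 / 10000)) :=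
    mul_nonneg (by linarith) (by linarith)
  have s3' : 0 ≤ (1617 / 10000) * (Q - q) := mul_nonneg (by norm_num) (by linarith)

  have s4 : 0 ≤ (1202281 / 1000000) * (a + (870581 / 2404562) * x + 0) ^ 2 := by positivity
  have s5 : 0 ≤ (1202281 / 1000000) * (z2 - a ^ 2) := mul_nonneg (by norm_num) (by linarith)
  have s6 : 0 ≤ (109853223761442737 / 308077292564000000) * ((x - (3 / 5)) * ((17 / 25) - x)) :=
    mul_nonneg (by norm_num) (mul_nonneg (by linarith) (by linarith))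
  have e1 : qh = Q - q := by linarith
  unfold rtC
  rw [hQQ, e1]
  rw [hq] at hq0 ⊢
  nlinarith [s1, s2, s3, s4, s5, s6, s3']

theorem ratC1 (x a z2 y0 x1 q qh : ℝ) (hx0 : (17 / 25) ≤ x) (hx1 : x ≤ (377 / 500))
    (ha : a ^ 2 ≤ z2) (h1 : |x1| ≤ y0) (hqh : 0 ≤ qh) (hq : q = 47 / 100 * (x ^ 2 + z2 + x * a)) (hQ : q + qh ≤ 1 / 5) :
    0 ≤ rtC x a z2 y0 x1 q qh := by
  have hy : 0 ≤ y0 := (abs_nonneg x1).trans h1
  have h1' := abs_le.1 h1
  have hxx : (0 : ℝ) ≤ x := le_trans (by norm_num) hx0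
  have hq0 : 0 ≤ q := by rw [hq]; nlinarith [sq_nonneg (x + 2 * a), sq_nonneg x]
  obtain ⟨Q, hQQ⟩ : ∃ Q, q + qh = Q := ⟨_, rfl⟩
  have hQ1 : Q ≤ 1 / 5 := by linarith
  have hQ0 : q ≤ Q := by linarith
  have hx1y : x1 ^ 2 ≤ y0 ^ 2 := sq_le_sq' h1'.1 h1'.2

  have s1 : -((27917 / 10000) + 52 / 100) * y0 ^ 2 + ((-(12067 / 25000)) + (1299 / 625) * Q) * y0 ≤
      -(27917 / 10000) * x1 ^ 2 - (if 0 ≤ x1 then 52 / 100 * x1 ^ 2 else 0) + ((-(12067 / 25000)) + (1299 / 625) * Q) * x1 := by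
    have hL : 0 ≤ -((-(12067 / 25000)) + (1299 / 625) * Q) := by linarith
    have h3 : 0 ≤ -((-(12067 / 25000)) + (1299 / 625) * Q) * (y0 - x1) := mul_nonneg hL (by linarith)
    split_ifs with h0
    · linarith
    · nlinarith [sq_nonneg y0]
  have s2 : 0 ≤ (64061 / 10000) * (y0 - (5000 / 64061) * (-(-(12067 / 25000)) - (1299 / 625) * Q + (2161 / 2500) * x)) ^ 2 := by positivity
  have s3 : 0 ≤ Q * ((33 / 500) - 33 / 200 * Q + (2500 / 64061) * (2 * (-(-(12067 / 25000)) + (2161 / 2500) * x) * (1299 / 625) - (1687401 / 390625) * Q) - (1729 / 10000)) :=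
    mul_nonneg (by linarith) (by linarith)
  have s3' : 0 ≤ (1729 / 10000) * (Q - q) := mul_nonneg (by norm_num) (by linarith)

  have s4 : 0 ≤ (241509 / 200000) * (a + (175169 / 483018) * x + 0) ^ 2 := by positivity
  have s5 : 0 ≤ (241509 / 200000) * (z2 - a ^ 2) := mul_nonneg (by norm_num) (by linarith)
  have s6 : 0 ≤ (4363268983851257 / 12377046439200000) * ((x - (17 / 25)) * ((377 / 500) - x)) :=
    mul_nonneg (by norm_num) (mul_nonneg (by linarith) (by linarith))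
  have e1 : qh = Q - q := by linarith
  unfold rtC
  rw [hQQ, e1]
  rw [hq] at hq0 ⊢
  nlinarith [s1, s2, s3, s4, s5, s6, s3']

end Pool.Agent.Helper97.RC
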