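import Pool.Agent.Helper97.RC.LowCc
import Pool.Agent.Helper97.RC.LowCr

/-!
# Project RC, track A, module LOWC
-/

set_option autoImplicit false

namespace Pool.Agent.Helper97.RC

open Helper56.RC

/-- MODULE LOWC. -/
theorem hLOWC' (h : StTrg) : StLowC := by
  intro x a z2 y0 x1 q qh hxa hxb ha h1 hy hqh hq hQ
  have hxx : (0 : ℝ) ≤ x := le_trans (by norm_num) hxa
  have hy0 : 0 ≤ y0 := (abs_nonneg x1).trans h1
  have hr : 0 ≤ rtC x a z2 y0 x1 q qh := by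
    have hx2 : x ≤ 377 / 500 := by
      by_contra hc
      push Not at hc
      nlinarith [sq_nonneg (x + 2 * a), sq_nonneg x]
    rcases le_total x (17 / 25) with c0 | c0
    · exact ratC0 x a z2 y0 x1 q qh hxa c0 ha h1 hqh hq hQ
    exact ratC1 x a z2 y0 x1 q qh c0 hx2 ha h1 hqh hq hQ
  obtain ⟨s1, s2⟩ := s3b
  have hq0 : 0 ≤ q := by rw [hq]; nlinarith [sq_nonneg (x + 2 * a), sq_nonneg x]
  have hz2 : 0 ≤ z2 := (sq_nonneg a).trans ha
  have ha1 : |a| ≤ 1 := by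
    apply abs_le_of_sq_le_sq _ (by norm_num)
    nlinarith [sq_nonneg (2 * x + a), sq_nonneg x]
  have hy3 : y0 ≤ 1 / 3 := by
    by_contra hc
    push Not at hc
    nlinarith
  have hx13 : |x1| ≤ 1 / 3 := h1.trans hy3
  have t1 : 0 ≤ (FSc (1 / 20) (33 / 200) - (8783 / 5000)) * q := by
    apply mul_nonneg _ hq0
    unfold FSc
    linarith
  have t2 : 0 ≤ (19 / 20 * sgm (Real.pi / 30) (2 * Real.pi / 15) 4 - vC thC (Real.pi / 30) (2 * Real.pi / 15) 4 - (3317 / 10000)) * z2 := by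
    apply mul_nonneg _ hz2
    linarith [sgm4C h, vC4C h]
  have t3 : 0 ≤ ((2601 / 2500) - (2 * (19 / 20) * sgm (Real.pi / 30) (2 * Real.pi / 15) 2 + vC thC (Real.pi / 30) (2 * Real.pi / 15) (-2))) * x ^ 2 := by
    apply mul_nonneg _ (sq_nonneg x)
    linarith [sgm2C h, vCm2C h]
  have t4 : 0 ≤ (AA (Real.pi / 30) (2 * Real.pi / 15) - (5107 / 10000)) * x := by
    apply mul_nonneg _ hxx
    linarith [AAC h]
  have t5 : |(BB (Real.pi / 30) (2 * Real.pi / 15) - 0) * a| ≤ 3 / 10 ^ 5 := by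
    rw [abs_mul]
    have h5 : |BB (Real.pi / 30) (2 * Real.pi / 15) - 0| ≤ 3 / 10 ^ 5 := by
      have h6 := BBC h
      rw [abs_le] at h6 ⊢
      constructor <;> linarith [h6.1, h6.2]
    calc _ ≤ (3 / 10 ^ 5 : ℝ) * 1 := mul_le_mul h5 ha1 (abs_nonneg _) (by norm_num)
      _ = _ := mul_one _
  have t6 : 0 ≤ (1 + 19 / 20 * (4 * gam (Real.pi / 30) (2 * Real.pi / 15) 1) + 891 / 100 - 17 / 100 - bC thC (Real.pi / 30) (2 * Real.pi / 15) 1 - (48589 / 5000)) * y0 ^ 2 := by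
    apply mul_nonneg _ (sq_nonneg y0)
    linarith [gamC h, bC1C h]
  have t7 : 0 ≤ ((27917 / 10000) - (2 - Real.sqrt 3 / 20 + FSc (1 / 20) (33 / 200) / 2)) * x1 ^ 2 := by
    apply mul_nonneg _ (sq_nonneg x1)
    unfold FSc
    linarith
  have t8 : |(4 - 3 * Real.sqrt 3 / 20 + 19 / 20 * (-2 + 4 * Real.cos (2 * Real.pi / 3 + 2 * (Real.pi / 30)) * Real.cos (2 * Real.pi / 15))
      - (-(12067 / 25000))) * x1| ≤ 3 / 10 ^ 5 := by
    rw [abs_mul]
    have h5 : |4 - 3 * Real.sqrt 3 / 20 + 19 / 20 * (-2 + 4 * Real.cos (2 * Real.pi / 3 + 2 * (Real.pi / 30)) * Real.cos (2 * Real.pi / 15))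
        - (-(12067 / 25000))| ≤ 9 / 10 ^ 5 := by
      have h6 := cC_li h
      rw [abs_le] at h6 ⊢
      constructor <;> linarith [h6.1, h6.2]
    calc _ ≤ (9 / 10 ^ 5 : ℝ) * (1 / 3) := mul_le_mul h5 hx13 (abs_nonneg _) (by norm_num)
      _ = _ := by norm_num
  have t9 : |(F1c (1 / 20) (33 / 200) - (1299 / 625)) * ((q + qh) * x1)| ≤ 1 / 10 ^ 5 := by
    rw [abs_mul]
    have h5 : |F1c (1 / 20) (33 / 200) - (1299 / 625)| ≤ 1 / 10 ^ 5 := by
      unfold F1c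
      rw [abs_le]
      constructor <;> linarith
    have h6 : |(q + qh) * x1| ≤ 1 := by
      rw [abs_mul, abs_of_nonneg (by linarith : 0 ≤ q + qh)]
      nlinarith [abs_nonneg x1]
    calc _ ≤ (1 / 10 ^ 5 : ℝ) * 1 := mul_le_mul h5 h6 (abs_nonneg _) (by norm_num)
      _ = _ := mul_one _
  have t10 : 0 ≤ ((2161 / 2500) - K1 (Real.pi / 30) (2 * Real.pi / 15)) * (x * y0) := by
    apply mul_nonneg _ (mul_nonneg hxx hy0)
    linarith [K1C h]
  have t11 : (-(723 / 5000)) + 1 / 10 ^ 4 ≤ 5 + Real.sqrt 3 / 10 + 19 / 20 * (2 + 2 * Real.cos (2 * (Real.pi / 30)) * Real.cos (2 * Real.pi / 15)) - 891 / 100 - (27 / 5000) := by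
    have h6 := (abs_le.1 (cC_cc h)).1
    linarith
  rw [abs_le] at t5 t8 t9
  unfold rtC at hr
  unfold LowF
  linarith [t5.1, t8.1, t9.1]

end Pool.Agent.Helper97.RC
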