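import Pool.Agent.Helper97.RC.LowBase

/-!
# Project RC, track A, module LOWA: bounds of the constants
-/

set_option autoImplicit false

namespace Pool.Agent.Helper97.RC

open Helper56.RC

theorem KKA_m1 (h : StTrg) : |KK (-(Real.pi / 120)) (Real.pi / 20) (-1)| ≤ (313809 / 1000000) := by
  refine KKb h _ _ (-1) 1 (-63) 999657 (-78459) _ ?_ ?_ (by decide) (by decide) (by norm_num) ?_
  · push_cast; ring
  · push_cast; ring
  · norm_num [abs_of_pos, abs_of_neg]

theorem KKA_5 (h : StTrg) : |KK (-(Real.pi / 120)) (Real.pi / 20) 5| ≤ (37943 / 125000) := by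
  refine KKb h _ _ 5 235 (-45) 991445 382683 _ ?_ ?_ (by decide) (by decide) (by norm_num) ?_
  · push_cast; ring
  · push_cast; ring
  · norm_num [abs_of_pos, abs_of_neg]

theorem KKA_11 (h : StTrg) : |KK (-(Real.pi / 120)) (Real.pi / 20) 11| ≤ (66283 / 250000) := by
  refine KKb h _ _ 11 469 (-27) 958820 760406 _ ?_ ?_ (by decide) (by decide) (by norm_num) ?_
  · push_cast; ring
  · push_cast; ring
  · norm_num [abs_of_pos, abs_of_neg]

theorem KKA_17 (h : StTrg) : |KK (-(Real.pi / 120)) (Real.pi / 20) 17| ≤ (20651 / 100000) := by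
  refine KKb h _ _ 17 703 (-9) 902585 972370 _ ?_ ?_ (by decide) (by decide) (by norm_num) ?_
  · push_cast; ring
  · push_cast; ring
  · norm_num [abs_of_pos, abs_of_neg]

theorem KKA_m7 (h : StTrg) : |KK (-(Real.pi / 120)) (Real.pi / 20) (-7)| ≤ (293583 / 1000000) := by
  refine KKb h _ _ (-7) (-233) (-81) 983255 (-522499) _ ?_ ?_ (by decide) (by decide) (by norm_num) ?_
  · push_cast; ring
  · push_cast; ring
  · norm_num [abs_of_pos, abs_of_neg]

theorem KKA_m13 (h : StTrg) : |KK (-(Real.pi / 120)) (Real.pi / 20) (-13)| ≤ (247309 / 1000000) := by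
  refine KKb h _ _ (-13) (-467) (-99) 942641 (-852640) _ ?_ ?_ (by decide) (by decide) (by norm_num) ?_
  · push_cast; ring
  · push_cast; ring
  · norm_num [abs_of_pos, abs_of_neg]

theorem cA_cc (h : StTrg) : |Real.cos (2 * (-(Real.pi / 120))) * Real.cos ((Real.pi / 20)) - (998630 / 10 ^ 6 * (987688 / 10 ^ 6) : ℝ)| ≤ 2 / 10 ^ 5 := by
  have h1 := ccb h (2 * (-(Real.pi / 120))) ((Real.pi / 20)) (-2) 6 998630 987688 (by push_cast; ring) (by push_cast; ring) (by decide) (by decide) (by norm_num)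
  push_cast at h1
  exact h1

theorem cA_AA (h : StTrg) : |Real.cos (2 * Real.pi / 3 + (-(Real.pi / 120))) * Real.sin ((Real.pi / 20) / 2) - ((-477159) / 10 ^ 6 * (78459 / 10 ^ 6) : ℝ)| ≤ 2 / 10 ^ 5 := by
  have h1 := csb h (2 * Real.pi / 3 + (-(Real.pi / 120))) ((Real.pi / 20) / 2) 79 (-57) (-477159) 78459 (by push_cast; ring) (by push_cast; ring) (by decide) (by decide) (by norm_num)
  push_cast at h1
  exact h1

theorem cA_BB (h : StTrg) : |Real.cos (4 * Real.pi / 3 + 5 * (-(Real.pi / 120))) * Real.sin (5 * (Real.pi / 20) / 2) - ((-608761) / 10 ^ 6 * (382683 / 10 ^ 6) : ℝ)| ≤ 2 / 10 ^ 5 := by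
  have h1 := csb h (4 * Real.pi / 3 + 5 * (-(Real.pi / 120))) (5 * (Real.pi / 20) / 2) 155 (-45) (-608761) 382683 (by push_cast; ring) (by push_cast; ring) (by decide) (by decide) (by norm_num)
  push_cast at h1
  exact h1

theorem cA_g1 (h : StTrg) : |Real.cos (2 * Real.pi * ((1 : ℝ) + 1) / 3 + 2 * (1 : ℝ) * (-(Real.pi / 120))) * Real.cos ((1 : ℝ) * (Real.pi / 20)) - ((-544639) / 10 ^ 6 * (987688 / 10 ^ 6) : ℝ)| ≤ 2 / 10 ^ 5 := by
  have h1 := ccb h (2 * Real.pi * ((1 : ℝ) + 1) / 3 + 2 * (1 : ℝ) * (-(Real.pi / 120))) ((1 : ℝ) * (Real.pi / 20)) 158 6 (-544639) 987688 (by push_cast; ring) (by push_cast; ring) (by decide) (by decide) (by norm_num)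
  push_cast at h1
  exact h1

theorem cA_s2 (h : StTrg) : |Real.cos (2 * (2 : ℝ) * (Real.pi / 3 + (-(Real.pi / 120)))) * Real.cos ((2 : ℝ) * (Real.pi / 20)) - ((-587785) / 10 ^ 6 * (951057 / 10 ^ 6) : ℝ)| ≤ 2 / 10 ^ 5 := by
  have h1 := ccb h (2 * (2 : ℝ) * (Real.pi / 3 + (-(Real.pi / 120)))) ((2 : ℝ) * (Real.pi / 20)) 156 12 (-587785) 951057 (by push_cast; ring) (by push_cast; ring) (by decide) (by decide) (by norm_num)
  push_cast at h1
  exact h1

theorem cA_s4 (h : StTrg) : |Real.cos (2 * (4 : ℝ) * (Real.pi / 3 + (-(Real.pi / 120)))) * Real.cos ((4 : ℝ) * (Real.pi / 20)) - ((-309017) / 10 ^ 6 * (809017 / 10 ^ 6) : ℝ)| ≤ 2 / 10 ^ 5 := by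
  have h1 := ccb h (2 * (4 : ℝ) * (Real.pi / 3 + (-(Real.pi / 120)))) ((4 : ℝ) * (Real.pi / 20)) 312 24 (-309017) 809017 (by push_cast; ring) (by push_cast; ring) (by decide) (by decide) (by norm_num)
  push_cast at h1
  exact h1

theorem cA_li (h : StTrg) : |Real.cos (2 * Real.pi / 3 + 2 * (-(Real.pi / 120))) * Real.cos ((Real.pi / 20)) - ((-453990) / 10 ^ 6 * (987688 / 10 ^ 6) : ℝ)| ≤ 2 / 10 ^ 5 := by
  have h1 := ccb h (2 * Real.pi / 3 + 2 * (-(Real.pi / 120))) ((Real.pi / 20)) 78 6 (-453990) 987688 (by push_cast; ring) (by push_cast; ring) (by decide) (by decide) (by norm_num)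
  push_cast at h1
  exact h1

theorem gamA (h : StTrg) : (11551 / 50000) ≤ gam (-(Real.pi / 120)) (Real.pi / 20) 1 := by
  have h1 := cA_g1 h
  rw [abs_le] at h1
  unfold gam
  norm_num at h1 ⊢
  linarith [h1.1]

theorem sgm2A (h : StTrg) : sgm (-(Real.pi / 120)) (Real.pi / 20) 2 ≤ (2436 / 3125) := by
  have h1 := cA_s2 h
  rw [abs_le] at h1
  unfold sgm
  norm_num at h1 ⊢
  linarith [h1.1]

theorem sgm4A (h : StTrg) : (62499 / 100000) ≤ sgm (-(Real.pi / 120)) (Real.pi / 20) 4 := by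
  have h1 := cA_s4 h
  rw [abs_le] at h1
  unfold sgm
  norm_num at h1 ⊢
  linarith [h1.2]

theorem AAA (h : StTrg) : (391 / 2500) ≤ AA (-(Real.pi / 120)) (Real.pi / 20) := by
  have h1 := cA_AA h
  rw [abs_le] at h1
  unfold AA
  norm_num at h1 ⊢
  linarith [h1.2]

theorem BBA (h : StTrg) : |BB (-(Real.pi / 120)) (Real.pi / 20) - (-(48689159524467 / 250000000000000))| ≤ 2 / 10 ^ 5 := by
  have h1 := cA_BB h
  rw [abs_le] at h1 ⊢
  unfold BB
  norm_num at h1 ⊢
  constructor <;> linarith [h1.1, h1.2]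

theorem K1A (h : StTrg) : K1 (-(Real.pi / 120)) (Real.pi / 20) ≤ (16397 / 50000) := by
  have h1 := KKA_m1 h
  unfold K1
  norm_num at h1 ⊢
  linarith

theorem vC4A (h : StTrg) : vC thA (-(Real.pi / 120)) (Real.pi / 20) 4 ≤ (7593 / 100000) := by
  have h1 := KKA_m1 h
  have h2 := KKA_5 h
  have h3 := KKA_11 h
  have h4 := KKA_17 h
  unfold vC aK wt thA
  norm_num at h1 h2 h3 h4 ⊢
  linarith

theorem vCm2A (h : StTrg) : vC thA (-(Real.pi / 120)) (Real.pi / 20) (-2) ≤ (1159 / 100000) := by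
  have h1 := KKA_m13 h
  have h2 := KKA_m7 h
  have h3 := KKA_5 h
  unfold vC aK wt thA
  norm_num at h1 h2 h3 ⊢
  linarith

theorem bC1A (h : StTrg) : bC thA (-(Real.pi / 120)) (Real.pi / 20) 1 ≤ (17519 / 25000) := by
  have h1 := KKA_m7 h
  have h2 := KKA_5 h
  have h3 := KKA_11 h
  unfold bC aK wt thA
  norm_num at h1 h2 h3 ⊢
  linarith

end Pool.Agent.Helper97.RC
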