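import Pool.Agent.Helper97.RC.M_LOWA
import Pool.Agent.Helper97.RC.M_LOWB
import Pool.Agent.Helper97.RC.M_LOWC
import Pool.Agent.Helper10.RC.M_TRG

/-!
# Project RC, track A, modules LOWA, LOWB, LOWC without hypotheses
-/

set_option autoImplicit false

namespace Pool.Agent.Helper97.RC

open Helper56.RC

theorem hLOWA : StLowA := hLOWA' Pool.Agent.Helper10.RC.hTRG

theorem hLOWB : StLowB := hLOWB' Pool.Agent.Helper10.RC.hTRG

theorem hLOWC : StLowC := hLOWC' Pool.Agent.Helper10.RC.hTRG

end Pool.Agent.Helper97.RC
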