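import Mathlib

/-!
# Project RC, track A, module LOWA: the rational inequality
-/

set_option autoImplicit false

namespace Pool.Agent.Helper97.RC

/-- the rational lower bound of the function of option A -/
noncomputable def rtA (x a z2 y0 x1 q qh : ℝ) : ℝ :=
  (9 / 250) + (8783 / 5000) * q - 33 / 200 * q ^ 2 + (1 / 20) * qh - 33 / 200 * qh * (2 * q + qh)
  + (2589 / 5000) * z2 - (14927 / 10000) * x ^ 2 + (391 / 2500) * x + (-(4869 / 25000)) * a
  + (99171 / 10000) * y0 ^ 2 - (27917 / 10000) * x1 ^ 2 - (if 0 ≤ x1 then 52 / 100 * x1 ^ 2 else 0)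
  + ((13627 / 100000) + (1299 / 625) * (q + qh)) * x1 - (41 / 125) * x * y0

theorem ratA0 (x a z2 y0 x1 q qh : ℝ) (hx0 : 0 ≤ x) (hx1 : x ≤ (29 / 100))
    (ha : a ^ 2 ≤ z2) (h1 : |x1| ≤ y0) (hqh : 0 ≤ qh) (hq : q = 47 / 100 * (x ^ 2 + z2 + x * a)) (hQ : q + qh ≤ 1 / 5) :
    0 ≤ rtA x a z2 y0 x1 q qh := by
  have hy : 0 ≤ y0 := (abs_nonneg x1).trans h1
  have h1' := abs_le.1 h1
  have hxx : (0 : ℝ) ≤ x := le_trans (by norm_num) hx0
  have hq0 : 0 ≤ q := by rw [hq]; nlinarith [sq_nonneg (x + 2 * a), sq_nonneg x]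
  obtain ⟨Q, hQQ⟩ : ∃ Q, q + qh = Q := ⟨_, rfl⟩
  have hQ1 : Q ≤ 1 / 5 := by linarith
  have hQ0 : q ≤ Q := by linarith
  have hx1y : x1 ^ 2 ≤ y0 ^ 2 := sq_le_sq' h1'.1 h1'.2

  have s1 : -((27917 / 10000) + 52 / 100) * y0 ^ 2 - ((13627 / 100000) + (1299 / 625) * Q) * y0 ≤
      -(27917 / 10000) * x1 ^ 2 - (if 0 ≤ x1 then 52 / 100 * x1 ^ 2 else 0) + ((13627 / 100000) + (1299 / 625) * Q) * x1 := by
    have hL : 0 ≤ (13627 / 100000) + (1299 / 625) * Q := by linarith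
    have h3 : 0 ≤ ((13627 / 100000) + (1299 / 625) * Q) * (x1 + y0) := mul_nonneg hL (by linarith)
    split_ifs with h0
    · linarith
    · nlinarith [sq_nonneg y0]
  have s2 : 0 ≤ (33027 / 5000) * (y0 - (2500 / 33027) * ((13627 / 100000) + (1299 / 625) * Q + (41 / 125) * x)) ^ 2 := by positivity
  have s3 : 0 ≤ (1 / 5 - Q) * (33 / 200 * (1 / 5 + Q) - (1 / 20) + (866 / 11009) * (2 * ((13627 / 100000) + (41 / 125) * x) + (1299 / 625) * (1 / 5 + Q))) :=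
    mul_nonneg (by linarith) (by linarith)

  have s4 : 0 ≤ (659951 / 500000) * (a + (401051 / 1319902) * x + (-(48690 / 659951))) ^ 2 := by positivity
  have s5 : 0 ≤ (659951 / 500000) * (z2 - a ^ 2) := mul_nonneg (by norm_num) (by linarith)
  have s6 : 0 ≤ (35594452575682919 / 43592403354000000) * ((x - 0) * ((29 / 100) - x)) :=
    mul_nonneg (by norm_num) (mul_nonneg (by linarith) (by linarith))
  have e1 : qh = Q - q := by linarith
  unfold rtA
  rw [hQQ, e1]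
  rw [hq] at hq0 ⊢
  nlinarith [s1, s2, s3, s4, s5, s6]

end Pool.Agent.Helper97.RC
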