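import Pool.Agent.Helper56.RC.StF

/-!
# Project RC, track A, modules LOWA, LOWB, LOWC: tools
-/

set_option autoImplicit false

namespace Pool.Agent.Helper97.RC

open Helper56.RC

theorem cb (h : StTrg) (x : ℝ) (k n : ℤ) (hx : x = k * Real.pi / 120) (hn : cT k = n) :
    |Real.cos x - n / 10 ^ 6| ≤ 1 / 10 ^ 5 := by
  have h1 := h k
  rw [hn, ← hx] at h1
  exact h1

theorem sb (h : StTrg) (x : ℝ) (k n : ℤ) (hx : x - Real.pi / 2 = k * Real.pi / 120) (hn : cT k = n) :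
    |Real.sin x - n / 10 ^ 6| ≤ 1 / 10 ^ 5 := by
  have h1 := cb h (x - Real.pi / 2) k n hx hn
  rwa [Real.cos_sub_pi_div_two] at h1

theorem pb (a b p q : ℝ) (ha : |a - p| ≤ 1 / 10 ^ 5) (hb : |b - q| ≤ 1 / 10 ^ 5) (hb1 : |b| ≤ 1)
    (hp : |p| ≤ 1) : |a * b - p * q| ≤ 2 / 10 ^ 5 := by
  have e : a * b - p * q = (a - p) * b + p * (b - q) := by ring
  have h1 : |(a - p) * b| ≤ 1 / 10 ^ 5 := by
    rw [abs_mul]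
    calc |a - p| * |b| ≤ (1 / 10 ^ 5) * 1 := mul_le_mul ha hb1 (abs_nonneg _) (by norm_num)
      _ = _ := mul_one _
  have h2 : |p * (b - q)| ≤ 1 / 10 ^ 5 := by
    rw [abs_mul]
    calc |p| * |b - q| ≤ 1 * (1 / 10 ^ 5) := mul_le_mul hp hb (abs_nonneg _) (by norm_num)
      _ = _ := one_mul _
  rw [e]
  refine (abs_add_le _ _).trans ?_
  calc _ ≤ 1 / 10 ^ 5 + 1 / 10 ^ 5 := add_le_add h1 h2
    _ = _ := by norm_num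

theorem cT_le (n : ℤ) (h1 : |n| ≤ 10 ^ 6) : |(n : ℝ) / 10 ^ 6| ≤ 1 := by
  rw [abs_div, abs_of_nonneg (by norm_num : (0 : ℝ) ≤ 10 ^ 6), div_le_one (by norm_num)]
  have h2 : ((|n| : ℤ) : ℝ) ≤ ((10 ^ 6 : ℤ) : ℝ) := by exact_mod_cast h1
  rw [Int.cast_abs] at h2
  norm_num at h2 ⊢
  exact h2

theorem ccb (h : StTrg) (x y : ℝ) (k1 k2 n1 n2 : ℤ) (hx : x = k1 * Real.pi / 120) (hy : y = k2 * Real.pi / 120)
    (h1 : cT k1 = n1) (h2 : cT k2 = n2) (hn : |n1| ≤ 10 ^ 6) :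
    |Real.cos x * Real.cos y - (n1 : ℝ) / 10 ^ 6 * (n2 / 10 ^ 6)| ≤ 2 / 10 ^ 5 :=
  pb _ _ _ _ (cb h x k1 n1 hx h1) (cb h y k2 n2 hy h2) (Real.abs_cos_le_one _) (cT_le n1 hn)

theorem csb (h : StTrg) (x y : ℝ) (k1 k2 n1 n2 : ℤ) (hx : x = k1 * Real.pi / 120)
    (hy : y - Real.pi / 2 = k2 * Real.pi / 120)
    (h1 : cT k1 = n1) (h2 : cT k2 = n2) (hn : |n1| ≤ 10 ^ 6) :
    |Real.cos x * Real.sin y - (n1 : ℝ) / 10 ^ 6 * (n2 / 10 ^ 6)| ≤ 2 / 10 ^ 5 :=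
  pb _ _ _ _ (cb h x k1 n1 hx h1) (sb h y k2 n2 hy h2) (Real.abs_sin_le_one _) (cT_le n1 hn)

theorem KKb (h : StTrg) (d ρ : ℝ) (j k1 k2 n1 n2 : ℤ) (u : ℝ)
    (hx : Real.pi * (1 + (j : ℝ)) / 3 + j * d = k1 * Real.pi / 120)
    (hy : (j : ℝ) * ρ / 2 - Real.pi / 2 = k2 * Real.pi / 120)
    (h1 : cT k1 = n1) (h2 : cT k2 = n2) (hn : |n1| ≤ 10 ^ 6)
    (hu : |4 / (j : ℝ)| * (|(n1 : ℝ) / 10 ^ 6 * (n2 / 10 ^ 6)| + 2 / 10 ^ 5) ≤ u) : |KK d ρ j| ≤ u := by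
  have h3 := csb h _ _ k1 k2 n1 n2 hx hy h1 h2 hn
  have e : KK d ρ j = 4 / (j : ℝ) * (Real.cos (Real.pi * (1 + (j : ℝ)) / 3 + j * d) * Real.sin ((j : ℝ) * ρ / 2)) := by
    unfold KK RR
    ring
  rw [e, abs_mul]
  refine le_trans (mul_le_mul_of_nonneg_left ?_ (abs_nonneg _)) hu
  have h4 := abs_sub_abs_le_abs_sub (Real.cos (Real.pi * (1 + (j : ℝ)) / 3 + j * d) * Real.sin ((j : ℝ) * ρ / 2))
    ((n1 : ℝ) / 10 ^ 6 * (n2 / 10 ^ 6))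
  linarith

theorem s3b : (17320508 / 10 ^ 7 : ℝ) ≤ Real.sqrt 3 ∧ Real.sqrt 3 ≤ 17320509 / 10 ^ 7 := by
  constructor
  · apply Real.le_sqrt_of_sq_le
    norm_num
  · rw [Real.sqrt_le_left (by norm_num)]
    norm_num

end Pool.Agent.Helper97.RC
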