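import Pool.Agent.Helper97.RC.LowBase

/-!
# Project RC, track A, module LOWB: bounds of the constants
-/

set_option autoImplicit false

namespace Pool.Agent.Helper97.RC

open Helper56.RC

theorem KKB_m1 (h : StTrg) : |KK (Real.pi / 40) (Real.pi / 10) (-1)| ≤ (623887 / 1000000) := by
  refine KKb h _ _ (-1) (-3) (-66) 996917 (-156434) _ ?_ ?_ (by decide) (by decide) (by norm_num) ?_
  · push_cast; ring
  · push_cast; ring
  · norm_num [abs_of_pos, abs_of_neg]

theorem KKB_5 (h : StTrg) : |KK (Real.pi / 40) (Real.pi / 10) 5| ≤ (261321 / 500000) := by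
  refine KKb h _ _ 5 255 (-30) 923880 707107 _ ?_ ?_ (by decide) (by decide) (by norm_num) ?_
  · push_cast; ring
  · push_cast; ring
  · norm_num [abs_of_pos, abs_of_neg]

theorem KKB_11 (h : StTrg) : |KK (Real.pi / 40) (Real.pi / 10) 11| ≤ (233263 / 1000000) := by
  refine KKb h _ _ 11 513 6 649448 987688 _ ?_ ?_ (by decide) (by decide) (by norm_num) ?_
  · push_cast; ring
  · push_cast; ring
  · norm_num [abs_of_pos, abs_of_neg]

theorem KKB_17 (h : StTrg) : |KK (Real.pi / 40) (Real.pi / 10) 17| ≤ (12471 / 500000) := by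
  refine KKb h _ _ 17 771 42 233445 453990 _ ?_ ?_ (by decide) (by decide) (by norm_num) ?_
  · push_cast; ring
  · push_cast; ring
  · norm_num [abs_of_pos, abs_of_neg]

theorem KKB_m7 (h : StTrg) : |KK (Real.pi / 40) (Real.pi / 10) (-7)| ≤ (434131 / 1000000) := by
  refine KKb h _ _ (-7) (-261) (-102) 852640 (-891007) _ ?_ ?_ (by decide) (by decide) (by norm_num) ?_
  · push_cast; ring
  · push_cast; ring
  · norm_num [abs_of_pos, abs_of_neg]

theorem KKB_m13 (h : StTrg) : |KK (Real.pi / 40) (Real.pi / 10) (-13)| ≤ (143253 / 1000000) := by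
  refine KKb h _ _ (-13) (-519) (-138) 522499 (-891007) _ ?_ ?_ (by decide) (by decide) (by norm_num) ?_
  · push_cast; ring
  · push_cast; ring
  · norm_num [abs_of_pos, abs_of_neg]

theorem cB_cc (h : StTrg) : |Real.cos (2 * (Real.pi / 40)) * Real.cos ((Real.pi / 10)) - (987688 / 10 ^ 6 * (951057 / 10 ^ 6) : ℝ)| ≤ 2 / 10 ^ 5 := by
  have h1 := ccb h (2 * (Real.pi / 40)) ((Real.pi / 10)) 6 12 987688 951057 (by push_cast; ring) (by push_cast; ring) (by decide) (by decide) (by norm_num)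
  push_cast at h1
  exact h1

theorem cB_AA (h : StTrg) : |Real.cos (2 * Real.pi / 3 + (Real.pi / 40)) * Real.sin ((Real.pi / 10) / 2) - ((-566406) / 10 ^ 6 * (156434 / 10 ^ 6) : ℝ)| ≤ 2 / 10 ^ 5 := by
  have h1 := csb h (2 * Real.pi / 3 + (Real.pi / 40)) ((Real.pi / 10) / 2) 83 (-54) (-566406) 156434 (by push_cast; ring) (by push_cast; ring) (by decide) (by decide) (by norm_num)
  push_cast at h1
  exact h1

theorem cB_BB (h : StTrg) : |Real.cos (4 * Real.pi / 3 + 5 * (Real.pi / 40)) * Real.sin (5 * (Real.pi / 10) / 2) - ((-130526) / 10 ^ 6 * (707107 / 10 ^ 6) : ℝ)| ≤ 2 / 10 ^ 5 := by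
  have h1 := csb h (4 * Real.pi / 3 + 5 * (Real.pi / 40)) (5 * (Real.pi / 10) / 2) 175 (-30) (-130526) 707107 (by push_cast; ring) (by push_cast; ring) (by decide) (by decide) (by norm_num)
  push_cast at h1
  exact h1

theorem cB_g1 (h : StTrg) : |Real.cos (2 * Real.pi * ((1 : ℝ) + 1) / 3 + 2 * (1 : ℝ) * (Real.pi / 40)) * Real.cos ((1 : ℝ) * (Real.pi / 10)) - ((-358368) / 10 ^ 6 * (951057 / 10 ^ 6) : ℝ)| ≤ 2 / 10 ^ 5 := by
  have h1 := ccb h (2 * Real.pi * ((1 : ℝ) + 1) / 3 + 2 * (1 : ℝ) * (Real.pi / 40)) ((1 : ℝ) * (Real.pi / 10)) 166 12 (-358368) 951057 (by push_cast; ring) (by push_cast; ring) (by decide) (by decide) (by norm_num)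
  push_cast at h1
  exact h1

theorem cB_s2 (h : StTrg) : |Real.cos (2 * (2 : ℝ) * (Real.pi / 3 + (Real.pi / 40))) * Real.cos ((2 : ℝ) * (Real.pi / 10)) - ((-207912) / 10 ^ 6 * (809017 / 10 ^ 6) : ℝ)| ≤ 2 / 10 ^ 5 := by
  have h1 := ccb h (2 * (2 : ℝ) * (Real.pi / 3 + (Real.pi / 40))) ((2 : ℝ) * (Real.pi / 10)) 172 24 (-207912) 809017 (by push_cast; ring) (by push_cast; ring) (by decide) (by decide) (by norm_num)
  push_cast at h1
  exact h1

theorem cB_s4 (h : StTrg) : |Real.cos (2 * (4 : ℝ) * (Real.pi / 3 + (Real.pi / 40))) * Real.cos ((4 : ℝ) * (Real.pi / 10)) - ((-913545) / 10 ^ 6 * (309017 / 10 ^ 6) : ℝ)| ≤ 2 / 10 ^ 5 := by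
  have h1 := ccb h (2 * (4 : ℝ) * (Real.pi / 3 + (Real.pi / 40))) ((4 : ℝ) * (Real.pi / 10)) 344 48 (-913545) 309017 (by push_cast; ring) (by push_cast; ring) (by decide) (by decide) (by norm_num)
  push_cast at h1
  exact h1

theorem cB_li (h : StTrg) : |Real.cos (2 * Real.pi / 3 + 2 * (Real.pi / 40)) * Real.cos ((Real.pi / 10)) - ((-629320) / 10 ^ 6 * (951057 / 10 ^ 6) : ℝ)| ≤ 2 / 10 ^ 5 := by
  have h1 := ccb h (2 * Real.pi / 3 + 2 * (Real.pi / 40)) ((Real.pi / 10)) 86 12 (-629320) 951057 (by push_cast; ring) (by push_cast; ring) (by decide) (by decide) (by norm_num)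
  push_cast at h1
  exact h1

theorem gamB (h : StTrg) : (32957 / 100000) ≤ gam (Real.pi / 40) (Real.pi / 10) 1 := by
  have h1 := cB_g1 h
  rw [abs_le] at h1
  unfold gam
  norm_num at h1 ⊢
  linarith [h1.1]

theorem sgm2B (h : StTrg) : sgm (Real.pi / 40) (Real.pi / 10) 2 ≤ (14603 / 25000) := by
  have h1 := cB_s2 h
  rw [abs_le] at h1
  unfold sgm
  norm_num at h1 ⊢
  linarith [h1.1]

theorem sgm4B (h : StTrg) : (32057 / 50000) ≤ sgm (Real.pi / 40) (Real.pi / 10) 4 := by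
  have h1 := cB_s4 h
  rw [abs_le] at h1
  unfold sgm
  norm_num at h1 ⊢
  linarith [h1.2]

theorem AAB (h : StTrg) : (9257 / 25000) ≤ AA (Real.pi / 40) (Real.pi / 10) := by
  have h1 := cB_AA h
  rw [abs_le] at h1
  unfold AA
  norm_num at h1 ⊢
  linarith [h1.2]

theorem BBB (h : StTrg) : |BB (Real.pi / 40) (Real.pi / 10) - (-(9644916145469 / 125000000000000))| ≤ 2 / 10 ^ 5 := by
  have h1 := cB_BB h
  rw [abs_le] at h1 ⊢
  unfold BB
  norm_num at h1 ⊢
  constructor <;> linarith [h1.1, h1.2]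

theorem K1B (h : StTrg) : K1 (Real.pi / 40) (Real.pi / 10) ≤ (65197 / 100000) := by
  have h1 := KKB_m1 h
  unfold K1
  norm_num at h1 ⊢
  linarith

theorem vC4B (h : StTrg) : vC thB (Real.pi / 40) (Real.pi / 10) 4 ≤ (9177 / 100000) := by
  have h1 := KKB_m1 h
  have h2 := KKB_5 h
  have h3 := KKB_11 h
  have h4 := KKB_17 h
  unfold vC aK wt thB
  norm_num at h1 h2 h3 h4 ⊢
  linarith

theorem vCm2B (h : StTrg) : vC thB (Real.pi / 40) (Real.pi / 10) (-2) ≤ (1231 / 50000) := by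
  have h1 := KKB_m13 h
  have h2 := KKB_m7 h
  have h3 := KKB_5 h
  unfold vC aK wt thB
  norm_num at h1 h2 h3 ⊢
  linarith

theorem bC1B (h : StTrg) : bC thB (Real.pi / 40) (Real.pi / 10) 1 ≤ (7357 / 6250) := by
  have h1 := KKB_m7 h
  have h2 := KKB_5 h
  have h3 := KKB_11 h
  unfold bC aK wt thB
  norm_num at h1 h2 h3 ⊢
  linarith

end Pool.Agent.Helper97.RC
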