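import Pool.Agent.Helper97.RC.LowBase

/-!
# Project RC, track A, module LOWC: bounds of the constants
-/

set_option autoImplicit false

namespace Pool.Agent.Helper97.RC

open Helper56.RC

theorem KKC_m1 (h : StTrg) : |KK (Real.pi / 30) (2 * Real.pi / 15) (-1)| ≤ (827173 / 1000000) := by
  refine KKb h _ _ (-1) (-4) (-68) 994522 (-207912) _ ?_ ?_ (by decide) (by decide) (by norm_num) ?_
  · push_cast; ring
  · push_cast; ring
  · norm_num [abs_of_pos, abs_of_neg]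

theorem KKC_5 (h : StTrg) : |KK (Real.pi / 30) (2 * Real.pi / 15) 5| ≤ (37501 / 62500) := by
  refine KKb h _ _ 5 260 (-20) 866025 866025 _ ?_ ?_ (by decide) (by decide) (by norm_num) ?_
  · push_cast; ring
  · push_cast; ring
  · norm_num [abs_of_pos, abs_of_neg]

theorem KKC_11 (h : StTrg) : |KK (Real.pi / 30) (2 * Real.pi / 15) 11| ≤ (54961 / 500000) := by
  refine KKb h _ _ 11 524 28 406737 743145 _ ?_ ?_ (by decide) (by decide) (by norm_num) ?_
  · push_cast; ring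
  · push_cast; ring
  · norm_num [abs_of_pos, abs_of_neg]

theorem KKC_17 (h : StTrg) : |KK (Real.pi / 30) (2 * Real.pi / 15) 17| ≤ (19903 / 1000000) := by
  refine KKb h _ _ 17 788 76 (-207912) (-406737) _ ?_ ?_ (by decide) (by decide) (by norm_num) ?_
  · push_cast; ring
  · push_cast; ring
  · norm_num [abs_of_pos, abs_of_neg]

theorem KKC_m7 (h : StTrg) : |KK (Real.pi / 30) (2 * Real.pi / 15) (-7)| ≤ (21117 / 50000) := by
  refine KKb h _ _ (-7) (-268) (-116) 743145 (-994522) _ ?_ ?_ (by decide) (by decide) (by norm_num) ?_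
  · push_cast; ring
  · push_cast; ring
  · norm_num [abs_of_pos, abs_of_neg]

theorem KKC_m13 (h : StTrg) : |KK (Real.pi / 30) (2 * Real.pi / 15) (-13)| ≤ (26027 / 1000000) := by
  refine KKb h _ _ (-13) (-532) (-164) 207912 (-406737) _ ?_ ?_ (by decide) (by decide) (by norm_num) ?_
  · push_cast; ring
  · push_cast; ring
  · norm_num [abs_of_pos, abs_of_neg]

theorem cC_cc (h : StTrg) : |Real.cos (2 * (Real.pi / 30)) * Real.cos ((2 * Real.pi / 15)) - (978148 / 10 ^ 6 * (913545 / 10 ^ 6) : ℝ)| ≤ 2 / 10 ^ 5 := by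
  have h1 := ccb h (2 * (Real.pi / 30)) ((2 * Real.pi / 15)) 8 16 978148 913545 (by push_cast; ring) (by push_cast; ring) (by decide) (by decide) (by norm_num)
  push_cast at h1
  exact h1

theorem cC_AA (h : StTrg) : |Real.cos (2 * Real.pi / 3 + (Real.pi / 30)) * Real.sin ((2 * Real.pi / 15) / 2) - ((-587785) / 10 ^ 6 * (207912 / 10 ^ 6) : ℝ)| ≤ 2 / 10 ^ 5 := by
  have h1 := csb h (2 * Real.pi / 3 + (Real.pi / 30)) ((2 * Real.pi / 15) / 2) 84 (-52) (-587785) 207912 (by push_cast; ring) (by push_cast; ring) (by decide) (by decide) (by norm_num)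
  push_cast at h1
  exact h1

theorem cC_BB (h : StTrg) : |Real.cos (4 * Real.pi / 3 + 5 * (Real.pi / 30)) * Real.sin (5 * (2 * Real.pi / 15) / 2) - (0 / 10 ^ 6 * (866025 / 10 ^ 6) : ℝ)| ≤ 2 / 10 ^ 5 := by
  have h1 := csb h (4 * Real.pi / 3 + 5 * (Real.pi / 30)) (5 * (2 * Real.pi / 15) / 2) 180 (-20) 0 866025 (by push_cast; ring) (by push_cast; ring) (by decide) (by decide) (by norm_num)
  push_cast at h1
  exact h1

theorem cC_g1 (h : StTrg) : |Real.cos (2 * Real.pi * ((1 : ℝ) + 1) / 3 + 2 * (1 : ℝ) * (Real.pi / 30)) * Real.cos ((1 : ℝ) * (2 * Real.pi / 15)) - ((-309017) / 10 ^ 6 * (913545 / 10 ^ 6) : ℝ)| ≤ 2 / 10 ^ 5 := by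
  have h1 := ccb h (2 * Real.pi * ((1 : ℝ) + 1) / 3 + 2 * (1 : ℝ) * (Real.pi / 30)) ((1 : ℝ) * (2 * Real.pi / 15)) 168 16 (-309017) 913545 (by push_cast; ring) (by push_cast; ring) (by decide) (by decide) (by norm_num)
  push_cast at h1
  exact h1

theorem cC_s2 (h : StTrg) : |Real.cos (2 * (2 : ℝ) * (Real.pi / 3 + (Real.pi / 30))) * Real.cos ((2 : ℝ) * (2 * Real.pi / 15)) - ((-104528) / 10 ^ 6 * (669131 / 10 ^ 6) : ℝ)| ≤ 2 / 10 ^ 5 := by
  have h1 := ccb h (2 * (2 : ℝ) * (Real.pi / 3 + (Real.pi / 30))) ((2 : ℝ) * (2 * Real.pi / 15)) 176 32 (-104528) 669131 (by push_cast; ring) (by push_cast; ring) (by decide) (by decide) (by norm_num)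
  push_cast at h1
  exact h1

theorem cC_s4 (h : StTrg) : |Real.cos (2 * (4 : ℝ) * (Real.pi / 3 + (Real.pi / 30))) * Real.cos ((4 : ℝ) * (2 * Real.pi / 15)) - ((-978148) / 10 ^ 6 * ((-104528) / 10 ^ 6) : ℝ)| ≤ 2 / 10 ^ 5 := by
  have h1 := ccb h (2 * (4 : ℝ) * (Real.pi / 3 + (Real.pi / 30))) ((4 : ℝ) * (2 * Real.pi / 15)) 352 64 (-978148) (-104528) (by push_cast; ring) (by push_cast; ring) (by decide) (by decide) (by norm_num)
  push_cast at h1
  exact h1

theorem cC_li (h : StTrg) : |Real.cos (2 * Real.pi / 3 + 2 * (Real.pi / 30)) * Real.cos ((2 * Real.pi / 15)) - ((-669131) / 10 ^ 6 * (913545 / 10 ^ 6) : ℝ)| ≤ 2 / 10 ^ 5 := by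
  have h1 := ccb h (2 * Real.pi / 3 + 2 * (Real.pi / 30)) ((2 * Real.pi / 15)) 88 16 (-669131) 913545 (by push_cast; ring) (by push_cast; ring) (by decide) (by decide) (by norm_num)
  push_cast at h1
  exact h1

theorem gamC (h : StTrg) : (35883 / 100000) ≤ gam (Real.pi / 30) (2 * Real.pi / 15) 1 := by
  have h1 := cC_g1 h
  rw [abs_le] at h1
  unfold gam
  norm_num at h1 ⊢
  linarith [h1.1]

theorem sgm2C (h : StTrg) : sgm (Real.pi / 30) (2 * Real.pi / 15) 2 ≤ (53499 / 100000) := by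
  have h1 := cC_s2 h
  rw [abs_le] at h1
  unfold sgm
  norm_num at h1 ⊢
  linarith [h1.1]

theorem sgm4C (h : StTrg) : (22443 / 50000) ≤ sgm (Real.pi / 30) (2 * Real.pi / 15) 4 := by
  have h1 := cC_s4 h
  rw [abs_le] at h1
  unfold sgm
  norm_num at h1 ⊢
  linarith [h1.2]

theorem AAC (h : StTrg) : (25537 / 50000) ≤ AA (Real.pi / 30) (2 * Real.pi / 15) := by
  have h1 := cC_AA h
  rw [abs_le] at h1
  unfold AA
  norm_num at h1 ⊢
  linarith [h1.2]

theorem BBC (h : StTrg) : |BB (Real.pi / 30) (2 * Real.pi / 15) - 0| ≤ 2 / 10 ^ 5 := by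
  have h1 := cC_BB h
  rw [abs_le] at h1 ⊢
  unfold BB
  norm_num at h1 ⊢
  constructor <;> linarith [h1.1, h1.2]

theorem K1C (h : StTrg) : K1 (Real.pi / 30) (2 * Real.pi / 15) ≤ (2161 / 2500) := by
  have h1 := KKC_m1 h
  unfold K1
  norm_num at h1 ⊢
  linarith

theorem vC4C (h : StTrg) : vC thC (Real.pi / 30) (2 * Real.pi / 15) 4 ≤ (4733 / 50000) := by
  have h1 := KKC_m1 h
  have h2 := KKC_5 h
  have h3 := KKC_11 h
  have h4 := KKC_17 h
  unfold vC aK wt thC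
  norm_num at h1 h2 h3 h4 ⊢
  linarith

theorem vCm2C (h : StTrg) : vC thC (Real.pi / 30) (2 * Real.pi / 15) (-2) ≤ (477 / 20000) := by
  have h1 := KKC_m13 h
  have h2 := KKC_m7 h
  have h3 := KKC_5 h
  unfold vC aK wt thC
  norm_num at h1 h2 h3 ⊢
  linarith

theorem bC1C (h : StTrg) : bC thC (Real.pi / 30) (2 * Real.pi / 15) 1 ≤ (138567 / 100000) := by
  have h1 := KKC_m7 h
  have h2 := KKC_5 h
  have h3 := KKC_11 h
  unfold bC aK wt thC
  norm_num at h1 h2 h3 ⊢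
  linarith

end Pool.Agent.Helper97.RC
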